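import Mathlib

set_option autoImplicit false

/-!
# The easier Waring number for fifth powers is at most nine

The proof uses two identities with eight fifth powers of linear polynomials,

* `(x+2)^5 - (x-2)^5 + (x-4)^5 - x^5 + (2x-2)^5 - (2x-1)^5 + (2x-2)^5 - (2x-3)^5 = 780 x - 780`,
* `(x+2)^5 - (x-2)^5 + (2x+1)^5 - (2x-3)^5 + (3x-2)^5 - (3x+2)^5 + (4x+1)^5 - (4x)^5
    = -780 x + 245`,

and one constant fifth power.
-/

namespace Pool.Agent.Results.MP_143a03_nt.NuFiveLeNine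

/-- `IsSignedSum k m n` says that the positive integer `n` can be written as
`n = ε₁ x₁ ^ k + ⋯ + ε_m x_m ^ k` with nonnegative integers `x_i` and signs `ε_i ∈ {1, -1}`. -/
def IsSignedSum (k m n : ℕ) : Prop :=
  ∃ (ε : Fin m → ℤ) (x : Fin m → ℕ),
    (∀ i, ε i = 1 ∨ ε i = -1) ∧ (n : ℤ) = ∑ i, ε i * (x i : ℤ) ^ k

/-- `IsNu k v` says that `v` is the easier Waring number `ν(k)`: the least positive integer `m`
such that every positive integer is a signed sum of `m` `k`-th powers. -/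
def IsNu (k v : ℕ) : Prop :=
  IsLeast {m : ℕ | 0 < m ∧ ∀ n : ℕ, 0 < n → IsSignedSum k m n} v

/-- A fifth power of an integer is a signed fifth power of a natural number. -/
theorem signed_pow (z : ℤ) : ∃ (e : ℤ) (x : ℕ), (e = 1 ∨ e = -1) ∧ z ^ 5 = e * (x : ℤ) ^ 5 := by
  rcases le_total 0 z with h | h
  · exact ⟨1, z.toNat, Or.inl rfl, by rw [Int.toNat_of_nonneg h, one_mul]⟩
  · exact ⟨-1, (-z).toNat, Or.inr rfl, by rw [Int.toNat_of_nonneg (by omega)]; ring⟩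

/-- Sums of fifth powers of integers are signed sums of fifth powers of natural numbers. -/
theorem isSignedSum_of_int {m n : ℕ} (z : Fin m → ℤ) (h : (n : ℤ) = ∑ i, z i ^ 5) :
    IsSignedSum 5 m n := by
  choose e x he hx using fun i => signed_pow (z i)
  exact ⟨e, x, he, by rw [h]; exact Finset.sum_congr rfl fun i _ => hx i⟩

/-- If `m` is not `2` modulo `4`, then `m ^ 25` is congruent to `m` modulo `780`. -/
theorem pow_25 (m : ℤ) (h : m % 4 ≠ 2) : ∃ x : ℤ, m = m ^ 25 + 780 * x := by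
  have h4 : (4 : ℤ) ∣ m - m ^ 25 := by
    apply Int.dvd_of_emod_eq_zero
    have h' : m % 4 = 0 ∨ m % 4 = 1 ∨ m % 4 = 3 := by omega
    rcases h' with h' | h' | h' <;> simp [Int.sub_emod, pow_succ, Int.mul_emod, h']
  have h3 : (3 : ℤ) ∣ m - m ^ 25 := by
    apply Int.dvd_of_emod_eq_zero
    have h' : m % 3 = 0 ∨ m % 3 = 1 ∨ m % 3 = 2 := by omega
    rcases h' with h' | h' | h' <;> simp [Int.sub_emod, pow_succ, Int.mul_emod, h']
  have h5 : (5 : ℤ) ∣ m - m ^ 25 := by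
    apply Int.dvd_of_emod_eq_zero
    have h' : m % 5 = 0 ∨ m % 5 = 1 ∨ m % 5 = 2 ∨ m % 5 = 3 ∨ m % 5 = 4 := by omega
    rcases h' with h' | h' | h' | h' | h' <;> simp [Int.sub_emod, pow_succ, Int.mul_emod, h']
  have h13 : (13 : ℤ) ∣ m - m ^ 25 := by
    apply Int.dvd_of_emod_eq_zero
    have h' : m % 13 = 0 ∨ m % 13 = 1 ∨ m % 13 = 2 ∨ m % 13 = 3 ∨ m % 13 = 4 ∨ m % 13 = 5 ∨
      m % 13 = 6 ∨ m % 13 = 7 ∨ m % 13 = 8 ∨ m % 13 = 9 ∨ m % 13 = 10 ∨ m % 13 = 11 ∨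
      m % 13 = 12 := by omega
    rcases h' with h' | h' | h' | h' | h' | h' | h' | h' | h' | h' | h' | h' | h' <;>
      simp [Int.sub_emod, pow_succ, Int.mul_emod, h']
  have h780 : (780 : ℤ) ∣ m - m ^ 25 := by omega
  obtain ⟨x, hx⟩ := h780
  exact ⟨x, by linarith⟩

/-- Every integer is a sum of nine fifth powers of integers. -/
theorem nine_fifth_powers (n : ℤ) : ∃ z : Fin 9 → ℤ, n = ∑ i, z i ^ 5 := by
  by_cases h : n % 4 = 2
  · obtain ⟨m, rfl⟩ : ∃ m : ℤ, n = m + 245 := ⟨n - 245, by ring⟩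
    obtain ⟨y, hy⟩ := pow_25 m (by omega)
    refine ⟨![-y + 2, -(-y - 2), 2 * -y + 1, -(2 * -y - 3), 3 * -y - 2, -(3 * -y + 2),
      4 * -y + 1, -(4 * -y), m ^ 5], ?_⟩
    simp only [Fin.sum_univ_succ, Fin.sum_univ_zero, Matrix.cons_val_zero, Matrix.cons_val_succ]
    linear_combination hy
  · obtain ⟨y, hy⟩ := pow_25 n h
    refine ⟨![(y + 1) + 2, -((y + 1) - 2), (y + 1) - 4, -(y + 1), 2 * (y + 1) - 2,
      -(2 * (y + 1) - 1), 2 * (y + 1) - 2, -(2 * (y + 1) - 3), n ^ 5], ?_⟩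
    simp only [Fin.sum_univ_succ, Fin.sum_univ_zero, Matrix.cons_val_zero, Matrix.cons_val_succ]
    linear_combination hy

/-- The easier Waring number `ν(5)` exists and is at most `9`. -/
theorem result : ∃ v : ℕ, IsNu 5 v ∧ v ≤ 9 := by
  classical
  have h9 : 0 < 9 ∧ ∀ n : ℕ, 0 < n → IsSignedSum 5 9 n := by
    refine ⟨by norm_num, fun n _ => ?_⟩
    obtain ⟨z, hz⟩ := nine_fifth_powers n
    exact isSignedSum_of_int z hz
  have hex : ∃ m : ℕ, 0 < m ∧ ∀ n : ℕ, 0 < n → IsSignedSum 5 m n := ⟨9, h9⟩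
  exact ⟨Nat.find hex, ⟨Nat.find_spec hex, fun m hm => Nat.find_min' hex hm⟩,
    Nat.find_min' hex h9⟩

end Pool.Agent.Results.MP_143a03_nt.NuFiveLeNine
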